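import Pool.Agent.H15.FLC.Targets
import Pool.Agent.H19.FLX.SUB

/-!
Row HLF of fl2_modules (MP_c62aed_lc): the number of the half clauses inside `A` with at most `d`
true literals under `x`.
-/

set_option autoImplicit false

namespace Pool.Agent.H49.FLC

open Finset
open Pool.Agent.H15.FLC

/-- the signs with at most `d` agreements with `x` on `B` -/
theorem cnt_one {n : ℕ} (B : Finset (Fin n)) (x : Fin n → Bool) (d : ℕ) :
    (univ.filter fun s : Fin n → Bool => (B.filter fun i => x i = s i).card ≤ d).card *
      2 ^ B.card ≤ 2 ^ n * ∑ j ∈ range (d + 1), B.card.choose j := by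
  classical
  have e1 : (univ.filter fun s : Fin n → Bool => (B.filter fun i => x i = s i).card ≤ d).card *
      2 ^ B.card = ((univ.filter fun s : Fin n → Bool =>
        (B.filter fun i => x i = s i).card ≤ d) ×ˢ B.powerset).card := by
    rw [card_product, card_powerset]
  have e2 : ((univ : Finset (Fin n → Bool)) ×ˢ
      ((range (d + 1)).biUnion fun j => powersetCard j B)).card ≤
        2 ^ n * ∑ j ∈ range (d + 1), B.card.choose j := by
    rw [card_product]
    refine Nat.mul_le_mul (le_of_eq ?_) ?_
    · rw [card_univ, Fintype.card_fun, Fintype.card_bool, Fintype.card_fin]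
    · refine le_trans card_biUnion_le (le_of_eq ?_)
      exact sum_congr rfl (fun j _ => card_powersetCard j B)
  rw [e1]
  refine le_trans ?_ e2
  refine card_le_card_of_injOn
    (fun p => (fun i => if i ∈ B then decide (i ∈ p.2) else p.1 i, B.filter fun i => x i = p.1 i))
    ?_ ?_
  · intro p hp
    rw [mem_coe, mem_product, mem_filter, mem_powerset] at hp
    rw [mem_coe, mem_product]
    refine ⟨mem_univ _, ?_⟩
    rw [mem_biUnion]
    exact ⟨(B.filter fun i => x i = p.1 i).card, mem_range.2 (Nat.lt_succ_of_le hp.1.2),
      mem_powersetCard.2 ⟨filter_subset _ _, rfl⟩⟩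
  · rintro ⟨s, U⟩ hp ⟨s', U'⟩ hp' h
    rw [mem_coe, mem_product, mem_filter, mem_powerset] at hp hp'
    have h1 := congrFun (congrArg Prod.fst h)
    have h2 : (B.filter fun i => x i = s i) = B.filter fun i => x i = s' i :=
      congrArg Prod.snd h
    have hU : U = U' := by
      ext i
      constructor
      · intro hi
        have hB : i ∈ B := hp.2 hi
        have h3 := h1 i
        simp only [hB, if_true] at h3
        have h4 : decide (i ∈ U) = true := decide_eq_true hi
        exact of_decide_eq_true (h3.symm.trans h4)
      · intro hi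
        have hB : i ∈ B := hp'.2 hi
        have h3 := h1 i
        simp only [hB, if_true] at h3
        have h4 : decide (i ∈ U') = true := decide_eq_true hi
        exact of_decide_eq_true (h3.trans h4)
    have hs : s = s' := by
      funext i
      by_cases hB : i ∈ B
      · have h5 : (x i = s i) ↔ (x i = s' i) := by
          constructor
          · intro h6
            have h7 : i ∈ B.filter fun i => x i = s i := mem_filter.2 ⟨hB, h6⟩
            rw [h2] at h7
            exact (mem_filter.1 h7).2
          · intro h6
            have h7 : i ∈ B.filter fun i => x i = s' i := mem_filter.2 ⟨hB, h6⟩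
            rw [← h2] at h7
            exact (mem_filter.1 h7).2
        revert h5
        cases x i <;> cases s i <;> cases s' i <;> simp
      · have h3 := h1 i
        simp only [hB, if_false] at h3
        exact h3
    rw [hU, hs]

/-- HLF -/
theorem pf_HLF : T_HLF := by
  classical
  intro β n k d A x hβ hA
  have hsub := Pool.Agent.H19.FLX.pf_SUB β n k A hβ hA
  have h1 : Nat.card {c : Half n k //
      c.1.1 ⊆ A ∧ (c.1.1.filter fun i => x i = c.2 i).card ≤ d} * 2 ^ k ≤
        Nat.card {B : {B : Finset (Fin n) // B.card = k} // B.1 ⊆ A} *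
          (2 ^ n * ∑ j ∈ range (d + 1), k.choose j) := by
    rw [Nat.card_eq_fintype_card, Fintype.card_subtype, card_filter, Fintype.sum_prod_type,
      Nat.card_eq_fintype_card, Fintype.card_subtype, card_filter, sum_mul, sum_mul]
    refine sum_le_sum (fun B _ => ?_)
    by_cases hB : B.1 ⊆ A
    · rw [if_pos hB, one_mul, ← card_filter]
      have h2 := cnt_one B.1 x d
      rw [B.2] at h2
      refine le_trans (Nat.mul_le_mul_right _ (card_le_card ?_)) h2
      intro s hs
      rw [mem_filter] at hs ⊢
      exact ⟨hs.1, hs.2.2⟩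
    · have h3 : (∑ s : Fin n → Bool, if B.1 ⊆ A ∧ (B.1.filter fun i => x i = s i).card ≤ d
          then 1 else 0) = 0 := by
        refine sum_eq_zero (fun s _ => ?_)
        rw [if_neg]
        intro h4
        exact hB h4.1
      rw [h3, zero_mul]
      exact Nat.zero_le _
  have h2 : Nat.card (Half n k) = Nat.card {B : Finset (Fin n) // B.card = k} * 2 ^ n := by
    rw [Nat.card_prod]
    congr 1
    rw [Nat.card_eq_fintype_card, Fintype.card_fun, Fintype.card_bool, Fintype.card_fin]
  have h3 : ((Nat.card {c : Half n k //
      c.1.1 ⊆ A ∧ (c.1.1.filter fun i => x i = c.2 i).card ≤ d} : ℕ) : ℝ) * 2 ^ k ≤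
        (Nat.card {B : {B : Finset (Fin n) // B.card = k} // B.1 ⊆ A} : ℕ) *
          (2 ^ n * ∑ j ∈ range (d + 1), (k.choose j : ℝ)) := by
    exact_mod_cast h1
  have hS : (0 : ℝ) ≤ 2 ^ n * ∑ j ∈ range (d + 1), (k.choose j : ℝ) :=
    mul_nonneg (by positivity) (sum_nonneg fun j _ => Nat.cast_nonneg _)
  have h4 := le_trans h3 (mul_le_mul_of_nonneg_right hsub hS)
  have h5 : (0 : ℝ) < 2 ^ k := by positivity
  refine le_of_mul_le_mul_right (le_trans h4 (le_of_eq ?_)) h5
  rw [h2, Nat.cast_mul, Nat.cast_pow, Nat.cast_ofNat, div_pow]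
  field_simp

end Pool.Agent.H49.FLC
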